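import Pool.Agent.H.MP_1b807b_an.RI.Fin2

/-!
Both parts of the conjecture, for all negative boundary parameters, in a class of domains: balls of
`ℝⁿ` with convex holes; in the plane discs with holes of any shape, and domains with any outer
boundary whose length is bounded in terms of the area and the lengths of the holes.
-/

set_option autoImplicit false

namespace Pool.Agent.Results.MP_1b807b_an.BallsWithHoles

open MeasureTheory Metric Set
open Pool.Agent.RG Pool.Agent.RH

/-- Let `n ≥ 2` and `V > 0`. The class `Cls n` consists of the balls with finitely many disjoint
convex bodies removed (`ConvexHoles`), and for `n = 2` also of the domains `D` bounded by finitely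
many disjoint rectifiable simple closed curves (`JordanBoundary`) such that `D` is a disc with holes
(of any shape and number) or the square of the length of the outer boundary is at most `4 π |D|`
plus the sum of the squares of the lengths of the boundaries of the holes. There is `αs < 0` such
that among the domains of volume `V` in this class:

* for `αs < α < 0` the maximisers of `λ₁(·; α)` are exactly the balls;
* for `α < αs` there are maximisers, and all of them are spherical shells;
* for `α = αs` all balls and some shell are maximisers, and every maximiser is a ball or a shell.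

Moreover for balls and shells the infimum defining `λ₁` is attained. -/
theorem result (n : ℕ) (hn : 2 ≤ n) (V : ℝ) (hV : 0 < V) : ∃ αs : ℝ, αs < 0 ∧
    (∀ α, αs < α → α < 0 → ∀ D : Domain n,
      IsMax n V α D ↔ IsBallSet D.carrier ∧ volume D.carrier = ENNReal.ofReal V) ∧
    (∀ α, α < αs → (∃ D : Domain n, IsMax n V α D) ∧
      ∀ D : Domain n, IsMax n V α D → IsShellSet D.carrier) ∧
    (∀ D : Domain n, IsBallSet D.carrier → volume D.carrier = ENNReal.ofReal V →
      IsMax n V αs D) ∧
    (∃ D : Domain n, IsShellSet D.carrier ∧ IsMax n V αs D) ∧
    (∀ D : Domain n, IsMax n V αs D → IsBallSet D.carrier ∨ IsShellSet D.carrier) ∧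
    (∀ α, α < 0 → ∀ D : Domain n, IsBallSet D.carrier ∨ IsShellSet D.carrier →
      ∃ u : E n → ℝ, ContDiff ℝ 1 u ∧ 0 < (∫ x in D.carrier, u x ^ 2) ∧
        D.robin α = (D.rayleigh α u : EReal)) :=
  transition2 n hn V hV

end Pool.Agent.Results.MP_1b807b_an.BallsWithHoles
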