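import Pool.Agent.H.MP_1b807b_an.G.Main
import Pool.Agent.H.MP_1b807b_an.P.StabP

/-!
In every dimension the ball is the unique maximiser of the first Robin eigenvalue among all domains
of given volume in an explicit range of the negative boundary parameter; in the plane the range is
`|α| R ≤ 33/20`.
-/

set_option autoImplicit false

namespace Pool.Agent.Results.MP_1b807b_an.ExplicitRange

open MeasureTheory Metric Set
open Pool.Agent.RG

/-- In the plane: the boundary consists of finitely many disjoint rectifiable simple closed curves,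
with arc length and outer normal (as for every bounded Lipschitz domain). In the other dimensions:
no condition. -/
def CurveBoundary : (n : ℕ) → Domain n → Prop
  | 2, D => Nonempty (Pool.Agent.RA.JordanBoundary D)
  | _, _ => True

/-- the constant `c_n` of the range `|α| R ≤ c_n` -/
noncomputable def rangeConst (n : ℕ) : ℝ := if n = 2 then 33 / 20 else 1 / (12 * n)

/-- the constant `d_n` of the deficit `d_n |α| (P(D) - P(B)) / |D|` -/
noncomputable def deficitConst (n : ℕ) : ℝ := if n = 2 then 1 / 1000 else 1 / 2

/-- Let `n ≥ 2`, `R > 0`, `-c_n/R ≤ α < 0`, where `c_2 = 33/20` and `c_n = 1/(12n)` for `n ≥ 3`,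
and let `B` be the ball of radius `R` in `ℝⁿ`. Then `λ₁(B; α)` is a real number and every domain
`D` with `|D| = |B|` (for `n = 2` with a boundary of finitely many rectifiable simple closed
curves, any number of them) satisfies `P(B) ≤ P(D)` and
`λ₁(D; α) ≤ λ₁(B; α) - d_n |α| (P(D) - P(B)) / |D|`, where `d_2 = 1/1000` and `d_n = 1/2` for
`n ≥ 3`; if `λ₁(D; α) ≥ λ₁(B; α)` then `D` is a ball of radius `R` up to a null set, and it is a
ball if it is the interior of its closure (as every Lipschitz domain is). -/
theorem result (n : ℕ) (hn : 2 ≤ n) (R : ℝ) (hR : 0 < R) (α : ℝ)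
    (h1 : -(rangeConst n / R) ≤ α) (h2 : α < 0) :
    (∃ r : ℝ, (ballDomain n (by omega) R hR).robin α = (r : EReal)) ∧
    ∀ D : Domain n, CurveBoundary n D → volume D.carrier = volume (ball (0 : E n) R) →
      (ballDomain n (by omega) R hR).perimeter ≤ D.perimeter ∧
      D.robin α ≤ (ballDomain n (by omega) R hR).robin α +
        ((deficitConst n * α * ((D.perimeter - (ballDomain n (by omega) R hR).perimeter) /
          volume.real D.carrier) : ℝ) : EReal) ∧
      ((ballDomain n (by omega) R hR).robin α ≤ D.robin α →
        ∃ x₀ : E n, D.carrier ⊆ ball x₀ R ∧ volume (ball x₀ R \ D.carrier) = 0 ∧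
          (interior (closure D.carrier) = D.carrier → D.carrier = ball x₀ R)) := by
  refine ⟨robin_ball_real (by omega) hR h2, fun D hD hv => ?_⟩
  by_cases hn2 : n = 2
  · subst hn2
    obtain ⟨J⟩ : Nonempty (Pool.Agent.RA.JordanBoundary D) := hD
    obtain ⟨a1, a2, a3⟩ := Pool.Agent.RP.planar_full J hR hv h2 (by
      rw [rangeConst, if_pos rfl] at h1
      rwa [neg_div])
    refine ⟨a1, ?_, fun hge => ?_⟩
    · rw [deficitConst, if_pos rfl]
      refine a2.trans (le_of_eq ?_)
      congr 2
      ring
    · obtain ⟨x₀, hx₀⟩ := a3 hge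
      refine ⟨x₀, hx₀.subset, ?_, fun _ => hx₀⟩
      rw [hx₀, diff_self, measure_empty]
  · obtain ⟨hP, hmain, heq⟩ := main hn hR (by
      rw [rangeConst, if_neg hn2, div_div] at h1
      exact h1) h2 D hv
    refine ⟨hP, ?_, fun hge => ?_⟩
    · rw [deficitConst, if_neg hn2]
      refine hmain.trans (le_of_eq ?_)
      congr 2
      ring
    · obtain ⟨x₀, hsub, hnull⟩ := heq hge
      refine ⟨x₀, hsub, hnull, fun hic => subset_antisymm hsub ?_⟩
      rw [← hic]
      refine interior_maximal ?_ isOpen_ball
      intro x hx
      by_contra hxc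
      have hopen : IsOpen (ball x₀ R ∩ (closure D.carrier)ᶜ) :=
        isOpen_ball.inter isClosed_closure.isOpen_compl
      have hpos : 0 < volume (ball x₀ R ∩ (closure D.carrier)ᶜ) :=
        hopen.measure_pos volume ⟨x, hx, hxc⟩
      have hle : volume (ball x₀ R ∩ (closure D.carrier)ᶜ) ≤ volume (ball x₀ R \ D.carrier) :=
        measure_mono fun y hy => ⟨hy.1, fun h => hy.2 (subset_closure h)⟩
      rw [hnull] at hle
      exact absurd hle (not_le.2 hpos)

end Pool.Agent.Results.MP_1b807b_an.ExplicitRange
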