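import Pool.Agent.H.MP_1b807b_an.L.Main

/-!
Among all planar domains whose convex hull has at most a given area the disc is the unique maximiser
of the first Robin eigenvalue, for every negative boundary parameter.
-/

set_option autoImplicit false

namespace Pool.Agent.Results.MP_1b807b_an.HullPlanar

open MeasureTheory Metric Set
open Pool.Agent.RG

/-- Let `R > 0`, `α < 0` and let `B` be the disc of radius `R` in the plane. Then `λ₁(B; α)` is a
real number, and every domain `D` of the plane, convex or not, with any number of holes, whose
convex hull has area at most `|B|`, satisfies `λ₁(D; α) ≤ λ₁(B; α)`. Equality holds only if the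
convex hull of `D` is a disc of radius `R` and `D` fills it up to a null set. -/
theorem result (R : ℝ) (hR : 0 < R) (α : ℝ) (hα : α < 0) :
    (∃ r : ℝ, (ballDomain 2 (by norm_num) R hR).robin α = (r : EReal)) ∧
    ∀ D : Domain 2, volume (convexHull ℝ D.carrier) ≤ volume (ball (0 : E 2) R) →
      D.robin α ≤ (ballDomain 2 (by norm_num) R hR).robin α ∧
      (D.robin α = (ballDomain 2 (by norm_num) R hR).robin α → ∃ x₀ : E 2,
        convexHull ℝ D.carrier = ball x₀ R ∧ volume (ball x₀ R \ D.carrier) = 0) :=
  ⟨robin_ball_real (by norm_num) hR hα, fun D hv => Pool.Agent.RC.main_hull hR hα D hv⟩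

end Pool.Agent.Results.MP_1b807b_an.HullPlanar
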