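import Pool.Agent.H.MP_1b807b_an.A.Final

/-!
Annuli are asymptotically optimal for the first Robin eigenvalue among all planar domains of given
area, with any number of holes, as the boundary parameter tends to minus infinity.
-/

set_option autoImplicit false

namespace Pool.Agent.Results.MP_1b807b_an.LargeParameter

open MeasureTheory Metric Set
open Pool.Agent.RG Pool.Agent.RA

/-- Let `A, ε > 0`. For all sufficiently large `β` every planar domain `D` of area `A` has
`λ₁(D; -β) ≤ -β² - (4π/A - ε) log β`, and some annulus of area `A` has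
`λ₁ ≥ -β² - (4π/A + ε) log β`. -/
theorem result (A ε : ℝ) (hA : 0 < A) (hε : 0 < ε) : ∃ β₀ : ℝ, ∀ β ≥ β₀,
    (∀ D : Domain 2, Nonempty (JordanBoundary D) → LocConn D.carrier →
      volume.real D.carrier = A →
      D.robin (-β) ≤ ((-β ^ 2 - (4 * Real.pi / A - ε) * Real.log β : ℝ) : EReal)) ∧
    ∃ D : Domain 2, Nonempty (JordanBoundary D) ∧ LocConn D.carrier ∧
      (∃ r₁ r₂ : ℝ, 0 < r₁ ∧ r₁ < r₂ ∧ D.carrier = {x : E 2 | r₁ < ‖x‖ ∧ ‖x‖ < r₂}) ∧
      volume.real D.carrier = A ∧
      ((-β ^ 2 - (4 * Real.pi / A + ε) * Real.log β : ℝ) : EReal) ≤ D.robin (-β) :=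
  main A ε hA hε

end Pool.Agent.Results.MP_1b807b_an.LargeParameter
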